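import Pool.Agent.MP_c69980_ag.H10.GrowA

/-! Growth of the characteristic of approximate uniformisations of a punctured plane. -/

set_option autoImplicit false

namespace Pool.Agent.MP_c69980_ag.H10

open Metric Filter Topology MeasureTheory Set Real H4

lemma key {x y Q : ℝ} (hx : 1 ≤ x) (hy : 0 < y) (h : x * y ^ 2 ≤ Q) : 1 ≤ 4 * Q * ee x y := by
  rw [ee, mul_div_assoc', one_le_div (by positivity)]
  nlinarith [mul_le_mul_of_nonneg_left h (show 0 ≤ 4 * x by positivity),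
    mul_nonneg (sq_nonneg y) (mul_nonneg (sub_nonneg.2 hx) (show 0 ≤ 3 * x + 1 by positivity))]

lemma ex_le {ι : Type} (S : Finset ι) (f : ι → ℝ) : ∃ M, ∀ i ∈ S, f i ≤ M :=
  (S.finite_toSet.image f).bddAbove.imp fun _ h i hi => h ⟨i, hi, rfl⟩

lemma log_one_add {x : ℝ} (hx : 1 ≤ x) : log (1 + x) ≤ 1 + log x := by
  have := log_le_log (by positivity) (show 1 + x ≤ 2 * x by linarith)
  rw [log_mul two_ne_zero (by positivity)] at this
  linarith [log_two_lt_d9]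

/-- The total density. -/
noncomputable def EE (S : Finset ℂ) (R : ℝ) (t : ℂ) : ℝ :=
  ∑ c ∈ S, (‖(t - c)⁻¹‖ ^ 2) ^ 2 * ee (‖(t - c)⁻¹‖ ^ 2) (1 + 1 * log (1 + ‖(t - c)⁻¹‖ ^ 2)) +
    ee (‖t‖ ^ 2) (1 + 1 * log (1 + ‖t‖ ^ 2)) + 1 / (1 + ‖t‖ ^ 2) ^ 2 +
    ee (‖t‖ ^ 2) (log (1 + R ^ 2) + -1 * log (1 + ‖t‖ ^ 2))

lemma dens (S : Finset ℂ) : ∃ C₁ R₀ : ℝ, 0 < C₁ ∧ ∀ R, R₀ ≤ R → ∀ t ∉ S, ‖t‖ < R → ∀ P : ℝ,
    (∀ h : ℂ → ℂ, DifferentiableOn ℂ h (ball 0 1) → (∀ w ∈ ball (0 : ℂ) 1, ‖h w‖ < R ∧ h w ∉ S) →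
      h 0 = t → ‖deriv h 0‖ ≤ P) → 1 ≤ C₁ * P ^ 2 * EE S R t := by
  obtain ⟨M, hM⟩ := ex_le (S ×ˢ S) fun p => ‖p.1 - p.2‖⁻¹
  obtain ⟨η, η0, η1, hη⟩ : ∃ η : ℝ, 0 < η ∧ η ≤ 1 ∧ ∀ c ∈ S, ∀ c' ∈ S, c' ≠ c → η ≤ ‖c' - c‖ :=
    ⟨(max M 1)⁻¹, by positivity, inv_le_one_of_one_le₀ (le_max_right _ _), fun c hc c' hc' h =>
      inv_le_of_inv_le₀ (norm_pos_iff.2 (sub_ne_zero.2 h))
        ((hM (c', c) (Finset.mk_mem_product hc' hc)).trans (le_max_left _ _))⟩
  obtain ⟨M₁, hM₁⟩ := ex_le S fun c => ‖c‖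
  obtain ⟨K, K1, hK⟩ : ∃ K : ℝ, 1 ≤ K ∧ ∀ c ∈ S, ‖c‖ ≤ K :=
    ⟨max M₁ 1, le_max_right _ _, fun c hc => (hM₁ c hc).trans (le_max_left _ _)⟩
  have e1 : 1 ≤ exp 1 := one_le_exp zero_le_one
  have l1 := log_nonpos η0.le η1
  have l2 := log_nonneg K1
  set A := 4 - 2 * log η with hA
  set B := 4 + 2 * log K with hB
  set G := (exp 1 / η) ^ 2 * (1 + (exp 1 * K) ^ 2) ^ 2 with hG
  refine ⟨4 * A ^ 2 + 4 * B ^ 2 + 16 + G, exp 1 * K + 1, by positivity, fun R hR t ht htR P hP => ?_⟩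
  have KR : K + 1 ≤ R := by nlinarith
  have ann : ∀ (c : ℂ) (l : ℝ), t ≠ c → 0 < l → (∀ u, ‖t - c‖ * exp (-l) < ‖u - c‖ →
      ‖u - c‖ < ‖t - c‖ * exp l → ‖u‖ < R ∧ u ∉ S) → ‖t - c‖ * l ≤ P := fun c l h0 hl H => by
    have := hP (fun w => c + (t - c) * Complex.exp (l * w)) (by fun_prop) (fun w hw => by
      have h1 := abs_lt.1 ((Complex.abs_re_le_norm w).trans_lt (mem_ball_zero_iff.1 hw))
      have h2 := norm_pos_iff.2 (sub_ne_zero.2 h0)
      refine H _ ?_ ?_ <;>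
        rw [add_sub_cancel_left, norm_mul, Complex.norm_exp, Complex.re_ofReal_mul] <;>
        gcongr <;> nlinarith [h1.1, h1.2]) (by simp)
    rwa [((((hasDerivAt_id' (0 : ℂ)).const_mul (l : ℂ)).cexp.const_mul (t - c)).const_add c).deriv,
      mul_zero, Complex.exp_zero, one_mul, mul_one, norm_mul, Complex.norm_real,
      Real.norm_of_nonneg hl.le] at this
  have fin : ∀ c E : ℝ, 1 ≤ c * P ^ 2 * E → 0 ≤ E → c ≤ 4 * A ^ 2 + 4 * B ^ 2 + 16 + G →
      E ≤ EE S R t → 1 ≤ (4 * A ^ 2 + 4 * B ^ 2 + 16 + G) * P ^ 2 * EE S R t :=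
    fun c E h1 h2 h3 h4 => h1.trans (by gcongr)
  have n0 : ∀ x y : ℝ, 0 ≤ ee (x ^ 2) y := fun x y => by unfold ee; positivity
  have n1 := Finset.sum_nonneg (s := S) fun c _ => mul_nonneg (sq_nonneg (‖(t - c)⁻¹‖ ^ 2))
    (n0 ‖(t - c)⁻¹‖ (1 + 1 * log (1 + ‖(t - c)⁻¹‖ ^ 2)))
  have n2 := n0 ‖t‖ (1 + 1 * log (1 + ‖t‖ ^ 2))
  have n3 := n0 ‖t‖ (log (1 + R ^ 2) + -1 * log (1 + ‖t‖ ^ 2))
  have n4 : 0 ≤ 1 / (1 + ‖t‖ ^ 2) ^ 2 := by positivity
  have G0 : 0 ≤ G := by positivity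
  by_cases h1 : ∃ c ∈ S, ‖t - c‖ * exp 1 ≤ η
  · obtain ⟨c, hc, h1⟩ := h1
    have h0 : t ≠ c := fun h => ht (h ▸ hc)
    have d0 := norm_pos_iff.2 (sub_ne_zero.2 h0)
    have k1 : 1 ≤ log (η / ‖t - c‖) := by
      rw [le_log_iff_exp_le (by positivity), le_div_iff₀' d0]; exact h1
    have k2 := ann c _ h0 (by linarith : 0 < log (η / ‖t - c‖)) fun u h2 h3 => by
      rw [exp_log (by positivity), mul_div_cancel₀ _ d0.ne'] at h3
      refine ⟨by linarith [norm_le_norm_add_norm_sub' u c, hK c hc], fun hu => ?_⟩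
      exact (hη c hc u hu (sub_ne_zero.1 (norm_pos_iff.1 (lt_trans (by positivity) h2)))).not_gt h3
    set x := ‖(t - c)⁻¹‖ ^ 2 with hx
    have k3 : x * ‖t - c‖ ^ 2 = 1 := by rw [hx, norm_inv]; field_simp
    have k4 : 1 ≤ x := by
      rw [hx, norm_inv]
      exact one_le_pow₀ ((one_le_inv₀ d0).2 (by nlinarith))
    have k5 : 1 + 1 * log (1 + x) ≤ A * log (η / ‖t - c‖) := by
      have := log_one_add k4
      rw [hx, norm_inv, log_pow, log_inv] at this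
      rw [log_div η0.ne' d0.ne'] at k1 ⊢
      rw [hx, norm_inv]
      push_cast at this
      nlinarith
    have y0 : 0 < 1 + 1 * log (1 + x) := by linarith [lnn (t - c)⁻¹]
    refine fin (4 * A ^ 2) _ ?_ (mul_nonneg (sq_nonneg _) (n0 _ _)) (by nlinarith [sq_nonneg B])
      ((Finset.single_le_sum (f := fun c => (‖(t - c)⁻¹‖ ^ 2) ^ 2 *
        ee (‖(t - c)⁻¹‖ ^ 2) (1 + 1 * log (1 + ‖(t - c)⁻¹‖ ^ 2)))
        (fun c _ => mul_nonneg (sq_nonneg _) (n0 _ _)) hc).trans (by unfold EE; linarith))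
    refine (key k4 y0 (Q := A ^ 2 * P ^ 2 * x ^ 2) ?_).trans_eq (by ring)
    have k6 := pow_le_pow_left₀ y0.le k5 2
    have k7 := pow_le_pow_left₀ (by positivity) k2 2
    calc x * (1 + 1 * log (1 + x)) ^ 2 ≤ x * (A * log (η / ‖t - c‖)) ^ 2 := by gcongr
      _ = A ^ 2 * (‖t - c‖ * log (η / ‖t - c‖)) ^ 2 * x ^ 2 := by
        linear_combination -(x * (A * log (η / ‖t - c‖)) ^ 2) * k3
      _ ≤ _ := by gcongr
  by_cases h2 : exp 1 * K ≤ ‖t‖
  · have t1 : 1 ≤ ‖t‖ := by nlinarith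
    have t0 : 0 < ‖t‖ := by linarith
    have x1 : 1 ≤ ‖t‖ ^ 2 := one_le_pow₀ t1
    have k1 : 1 ≤ log (‖t‖ / K) := by
      rw [le_log_iff_exp_le (by positivity), le_div_iff₀ (by positivity)]; exact h2
    have k2 : 0 < log (R / ‖t‖) := log_pos ((one_lt_div t0).2 htR)
    have k3 := ann 0 (min (log (‖t‖ / K)) (log (R / ‖t‖))) (norm_pos_iff.1 t0)
      (lt_min (by linarith) k2) fun u h3 h4 => by
      simp only [sub_zero] at h3 h4
      have a1 := mul_le_mul_of_nonneg_left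
        (exp_le_exp.2 (min_le_right (log (‖t‖ / K)) (log (R / ‖t‖)))) t0.le
      have a2 := mul_le_mul_of_nonneg_left
        (exp_le_exp.2 (neg_le_neg (min_le_left (log (‖t‖ / K)) (log (R / ‖t‖))))) t0.le
      rw [exp_log (by linarith [(one_lt_div t0).2 htR]), mul_div_cancel₀ _ t0.ne'] at a1
      rw [exp_neg, exp_log (by positivity), inv_div, mul_div_cancel₀ _ t0.ne'] at a2
      exact ⟨h4.trans_le a1, fun hu => (hK u hu).not_gt (a2.trans_lt h3)⟩
    rw [sub_zero] at k3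
    rcases le_total (log (‖t‖ / K)) (log (R / ‖t‖)) with h | h
    · rw [min_eq_left h] at k3
      have k5 : 1 + 1 * log (1 + ‖t‖ ^ 2) ≤ B * log (‖t‖ / K) := by
        have := log_one_add x1
        rw [log_pow] at this
        rw [log_div t0.ne' (by positivity)] at k1 ⊢
        push_cast at this
        nlinarith
      have y0 : 0 < 1 + 1 * log (1 + ‖t‖ ^ 2) := by linarith [lnn t]
      refine fin (4 * B ^ 2) _ ?_ n2 (by nlinarith [sq_nonneg A]) (by unfold EE; linarith)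
      refine (key x1 y0 (Q := B ^ 2 * P ^ 2) ?_).trans_eq (by ring)
      calc ‖t‖ ^ 2 * (1 + 1 * log (1 + ‖t‖ ^ 2)) ^ 2 ≤ ‖t‖ ^ 2 * (B * log (‖t‖ / K)) ^ 2 := by gcongr
        _ = B ^ 2 * (‖t‖ * log (‖t‖ / K)) ^ 2 := by ring
        _ ≤ _ := by gcongr
    · rw [min_eq_right h] at k3
      have tR : ‖t‖ ^ 2 < R ^ 2 := by gcongr
      have y0 : 0 < log (1 + R ^ 2) + -1 * log (1 + ‖t‖ ^ 2) := by
        linarith [log_lt_log (by positivity) (show 1 + ‖t‖ ^ 2 < 1 + R ^ 2 by linarith)]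
      have k5 : log (1 + R ^ 2) + -1 * log (1 + ‖t‖ ^ 2) ≤ 2 * log (R / ‖t‖) := by
        have := log_le_log (by positivity)
          (show (1 + R ^ 2) * ‖t‖ ^ 2 ≤ (1 + ‖t‖ ^ 2) * R ^ 2 by nlinarith)
        rw [log_mul (by positivity) (by positivity), log_mul (by positivity)
          (pow_ne_zero _ (by linarith)), log_pow, log_pow] at this
        rw [log_div (by linarith) t0.ne']
        push_cast at this
        linarith
      refine fin 16 _ ?_ n3 (by nlinarith [sq_nonneg A, sq_nonneg B]) (by unfold EE; linarith)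
      refine (key x1 y0 (Q := 4 * P ^ 2) ?_).trans_eq (by ring)
      calc ‖t‖ ^ 2 * (log (1 + R ^ 2) + -1 * log (1 + ‖t‖ ^ 2)) ^ 2 ≤
            ‖t‖ ^ 2 * (2 * log (R / ‖t‖)) ^ 2 := by gcongr
        _ = 4 * (‖t‖ * log (R / ‖t‖)) ^ 2 := by ring
        _ ≤ _ := by gcongr
  push Not at h1 h2
  have q0 : 0 < η / exp 1 := by positivity
  have k1 := hP (fun w => t + (η / exp 1 : ℝ) * w) (by fun_prop) (fun w hw => by
    have h3 : ‖((η / exp 1 : ℝ) : ℂ) * w‖ < η / exp 1 := by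
      rw [norm_mul, Complex.norm_real, Real.norm_of_nonneg q0.le]
      exact mul_lt_of_lt_one_right q0 (mem_ball_zero_iff.1 hw)
    have h4 : η / exp 1 ≤ 1 := (div_le_one (exp_pos 1)).2 (η1.trans e1)
    refine ⟨by linarith [norm_add_le t (((η / exp 1 : ℝ) : ℂ) * w)], fun hu => ?_⟩
    have := h1 _ hu
    rw [sub_add_cancel_left, norm_neg, ← div_lt_iff₀ (exp_pos 1)] at this
    linarith) (by simp)
  rw [(((hasDerivAt_id' (0 : ℂ)).const_mul ((η / exp 1 : ℝ) : ℂ)).const_add t).deriv, mul_one,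
    Complex.norm_real, Real.norm_of_nonneg q0.le] at k1
  refine fin G _ ?_ n4 (by nlinarith [sq_nonneg A, sq_nonneg B]) (by unfold EE; linarith)
  rw [mul_one_div, one_le_div (by positivity)]
  calc (1 + ‖t‖ ^ 2) ^ 2 ≤ (1 + (exp 1 * K) ^ 2) ^ 2 := by gcongr
    _ = G * (η / exp 1) ^ 2 := by rw [hG]; field_simp
    _ ≤ _ := by gcongr

lemma lam_gr {ψ : ℂ → ℂ} {z : ℂ} (h : DifferentiableAt ℂ ψ z) :
    lam (gr ψ) z = ‖deriv ψ z‖ ^ 2 / (1 + ‖ψ z‖ ^ 2) ^ 2 := by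
  have : HasDerivAt (gr ψ) ![0, deriv ψ z] z := hasDerivAt_pi.2 fun i => by
    fin_cases i
    exacts [hasDerivAt_const z 1, h.hasDerivAt]
  simp [lam, lamv, this.deriv, H4.sq, ip, gr, Fin.sum_univ_two]
  ring

theorem grow (hK : KoebeStmt) : GrowStmt := fun S _ => by
  obtain ⟨C₁, R₀, C0, hD⟩ := dens S
  set N : ℝ := S.card + 3 with hN
  have N0 : 0 < N := by positivity
  refine ⟨(4 * C₁ * N)⁻¹, by positivity, fun a ha => ?_⟩
  obtain ⟨M, hM⟩ := ex_le S fun c => ‖a - c‖⁻¹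
  obtain ⟨η, η0, η1, hη⟩ : ∃ η : ℝ, 0 < η ∧ η ≤ 1 ∧ ∀ c ∈ S, η ≤ ‖a - c‖ :=
    ⟨(max M 1)⁻¹, by positivity, inv_le_one_of_one_le₀ (le_max_right _ _), fun c hc =>
      inv_le_of_inv_le₀ (norm_pos_iff.2 (sub_ne_zero.2 fun h => ha (h ▸ hc)))
        ((hM c hc).trans (le_max_left _ _))⟩
  let l : ℂ → ℝ := fun t => log (1 + ‖t‖ ^ 2)
  let Θ : ℂ → ℝ := fun t => ∑ c ∈ S, (-log (1 + 1 * l (t - c)⁻¹) + l (t - c)) +
    (-log (1 + 1 * l t) + l t) + l t
  set K := ∑ c ∈ S, log (2 * (1 + ‖c‖ ^ 2)) - Θ a + log 2 with hKd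
  set C₂ := (4 * C₁ * N)⁻¹ * log 4 + K / N + l a with hC₂
  refine ⟨max (2 / η) C₂, by positivity, fun r r0 r1 => ?_⟩
  have rp : 0 < r := by linarith
  set θ := (1 + r) / 2 with hθ
  have θ1 : θ < 1 := by linarith
  have κ0 : 0 < (1 - θ ^ 2) / 2 := by nlinarith
  have t1 : Tendsto (fun R : ℝ => log (1 + R ^ 2)) atTop atTop := tendsto_log_atTop.comp
    (tendsto_atTop_add_const_left _ _ (tendsto_pow_atTop two_ne_zero))
  obtain ⟨R, R1, R2, R3, R4⟩ := ((eventually_ge_atTop R₀).and ((eventually_ge_atTop (‖a‖ + 1)).and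
    ((eventually_ge_atTop (4 * ‖a‖ / (1 - r))).and
      (t1.eventually_ge_atTop (4 * (1 - log ((1 - θ ^ 2) / 2))))))).exists
  have a0 := norm_nonneg a
  obtain ⟨φ, f1, f2, f3, f4, f5⟩ := hK S R θ a ha (by linarith) θ1
  let ψ : ℂ → ℂ := fun z => φ (r * z)
  have s1 : 1 < θ / r := (one_lt_div rp).2 (by linarith)
  have rs : r < θ / r := r1.trans s1
  have nz : ∀ z : ℂ, ‖r * z‖ = r * ‖z‖ := fun z => by
    rw [norm_mul, Complex.norm_real, Real.norm_of_nonneg rp.le]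
  have m1 : ∀ z ∈ ball (0 : ℂ) (θ / r), r * z ∈ ball (0 : ℂ) θ := fun z hz => by
    rw [mem_ball_zero_iff] at hz ⊢
    rwa [nz, ← lt_div_iff₀' rp]
  have m2 : ∀ z ∈ ball (0 : ℂ) (θ / r), r * z ∈ ball (0 : ℂ) 1 := fun z hz =>
    ball_subset_ball θ1.le (m1 z hz)
  have d1 : DifferentiableOn ℂ ψ (ball 0 (θ / r)) := f1.comp (by fun_prop) m2
  have d2 : ∀ z ∈ ball (0 : ℂ) (θ / r), ‖deriv ψ z‖ = r * ‖deriv φ (r * z)‖ := fun z hz => by
    rw [← nz, mul_comm]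
    exact congrArg _ ((f1.differentiableAt (isOpen_ball.mem_nhds (m2 z hz))).hasDerivAt.comp z
      (by simpa using (hasDerivAt_id z).const_mul (r : ℂ))).deriv
  have ψ0 : ψ 0 = a := by simpa [ψ] using f3
  have hS : ∀ z ∈ ball (0 : ℂ) (θ / r), ψ z ∉ S := fun z hz => f4 _ (m1 z hz)
  have hR : ∀ z ∈ ball (0 : ℂ) (θ / r), ‖ψ z‖ < R := fun z hz => mem_ball_zero_iff.1 (f2 (m2 z hz))
  refine ⟨ψ, θ / r, s1, d1, hS, ψ0, ?_, ?_⟩
  · have := f5 0 (mem_ball_self one_pos) (fun w => a + η * w) (by fun_prop) (fun w hw => by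
      have h3 : ‖(η : ℂ) * w‖ < η := by
        rw [norm_mul, Complex.norm_real, Real.norm_of_nonneg η0.le]
        exact mul_lt_of_lt_one_right η0 (mem_ball_zero_iff.1 hw)
      refine ⟨by linarith [norm_add_le a (η * w)], fun hu => ?_⟩
      have := hη _ hu
      rw [sub_add_cancel_left, norm_neg] at this
      linarith) (by simp [f3])
    rw [(((hasDerivAt_id' (0 : ℂ)).const_mul (η : ℂ)).const_add a).deriv, mul_one,
      Complex.norm_real, Real.norm_of_nonneg η0.le] at this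
    rw [d2 0 (mem_ball_self (by linarith)), mul_zero]
    refine (inv_anti₀ (by positivity) (le_max_left _ _)).trans ?_
    rw [inv_div]
    simp only [norm_zero, ne_eq, OfNat.ofNat_ne_zero, not_false_eq_true, zero_pow, sub_zero,
      mul_one] at this
    nlinarith [norm_nonneg (deriv φ 0)]
  set L := log (1 + R ^ 2) with hL
  have w0 : ∀ t : ℂ, ‖t‖ < R → 0 < L + -1 * l t := fun t ht => by
    have : ‖t‖ ^ 2 < R ^ 2 := by gcongr
    linarith [log_lt_log (by positivity) (show 1 + ‖t‖ ^ 2 < 1 + R ^ 2 by linarith)]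
  have P1 := p1 rp rs d1
  have lo := (((((Lo.sum S fun c hc => lo_fin rp rs d1 c fun z hz h => hS z hz (h ▸ hc)).add
    (lo_inf rp rs d1)).add P1.lo).add (lo_out rp rs d1 L fun z hz => w0 _ (hR z hz))).mul
      (c := 4 * C₁) (by positivity))
  have P4 := p4 (ρ := fun z => r * z) rp rs (by fun_prop) fun z hz =>
    pow_lt_one₀ (norm_nonneg _) (mem_ball_zero_iff.1 (m2 z hz)) two_ne_zero
  have k1 := P4.le (lo.mono fun z hz => by
    have hz' := ball_subset_ball rs.le hz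
    have q0 : 0 < 1 - ‖r * z‖ ^ 2 :=
      sub_pos.2 (pow_lt_one₀ (norm_nonneg _) (mem_ball_zero_iff.1 (m2 z hz')) two_ne_zero)
    have h1 := hD R R1 _ (hS z hz') (hR z hz') (2 * ‖deriv ψ z‖ * (1 - ‖r * z‖ ^ 2))
      fun h a1 a2 a3 => (f5 _ (m2 z hz') h a1 a2 a3).trans (by
        rw [d2 z hz']
        gcongr
        nlinarith [norm_nonneg (deriv φ (r * z))])
    have h2 : ‖deriv (fun z : ℂ => r * z) z‖ ^ 2 ≤ 1 := by
      rw [((hasDerivAt_id' z).const_mul (r : ℂ)).deriv, nz, norm_one]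
      nlinarith
    rw [div_le_iff₀ (by positivity), ← Finset.mul_sum]
    refine le_trans (by linarith) ((mul_le_mul_of_nonneg_left h1 (by norm_num : (0 : ℝ) ≤ 4)).trans_eq ?_)
    unfold EE
    ring)
  have k2 : circleAverage (fun z : ℂ => -log (1 - ‖r * z‖ ^ 2)) 0 r = -log (1 - (r * r) ^ 2) :=
    circleAverage_const_on_circle fun z hz => by
      rw [nz, mem_sphere_zero_iff_norm.1 hz, abs_of_pos rp]
  have k3 : log (1 / (1 - r)) - log 4 ≤ -log (1 - (r * r) ^ 2) := by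
    have := log_le_log (by nlinarith [pow_lt_one₀ (mul_pos rp rp).le (by nlinarith) two_ne_zero])
      (show 1 - (r * r) ^ 2 ≤ 4 * (1 - r) by nlinarith [mul_pos rp rp, sq_nonneg (1 - r * r)])
    rw [log_mul (by norm_num) (by linarith)] at this
    rw [one_div, log_inv]
    linarith
  obtain ⟨e, ⟨ci, -, -⟩, -⟩ := lo
  have ci' : CircleIntegrable (fun z => 4 * C₁ * N * log (1 + ‖ψ z‖ ^ 2)) 0 r :=
    P1.1.const_mul (4 * C₁ * N)
  have k4 := circleAverage_mono ci (CircleIntegrable.add ci' (circleIntegrable_const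
    (4 * C₁ * (K + (Θ a + -log (L + -1 * l a)))) 0 r)) fun z hz => by
    rw [abs_of_pos rp] at hz
    have hz' : z ∈ ball (0 : ℂ) (θ / r) := closedBall_subset_ball rs (sphere_subset_closedBall hz)
    have b1 : ‖ψ z‖ ≤ θ * R := by
      have := Complex.dist_le_div_mul_dist_of_mapsTo_ball (R₂ := R + ‖a‖) f1 (fun w hw => by
        rw [mem_closedBall_iff_norm, f3]
        linarith [norm_sub_le (φ w) a, mem_ball_zero_iff.1 (f2 hw)]) (m2 z hz')
      rw [f3, dist_eq_norm, dist_zero_right, nz, mem_sphere_zero_iff_norm.1 hz, div_one] at this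
      rw [div_le_iff₀ (by linarith)] at R3
      have h3 : (R + ‖a‖) * (r * r) ≤ (R + ‖a‖) * r :=
        mul_le_mul_of_nonneg_left (mul_le_of_le_one_left rp.le r1.le) (by linarith)
      have := norm_le_norm_add_norm_sub' (φ (r * z)) a
      change ‖φ (r * z)‖ ≤ _
      nlinarith
    have b2 : (1 - θ ^ 2) / 2 ≤ L + -1 * l (ψ z) := by
      have := log_le_sub_one_of_pos (show 0 < (1 + ‖ψ z‖ ^ 2) / (1 + R ^ 2) by positivity)
      rw [log_div (by positivity) (by positivity)] at this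
      have h4 : (1 + ‖ψ z‖ ^ 2) / (1 + R ^ 2) ≤ 1 - (1 - θ ^ 2) / 2 := by
        rw [div_le_iff₀ (by positivity)]
        have := pow_le_pow_left₀ (norm_nonneg _) b1 2
        have : 1 ≤ R ^ 2 := one_le_pow₀ (by linarith)
        nlinarith
      linarith
    have L0 : 0 < L := by linarith [w0 a (by linarith), lnn a]
    have b3 : -log (L + -1 * l (ψ z)) ≤ log 2 + l (ψ z) + -log (L + -1 * l a) := by
      have h5 := log_le_log (w0 a (by linarith)) (show L + -1 * l a ≤ L by linarith [lnn a])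
      rcases le_total (l (ψ z)) (L / 2) with h | h
      · have := log_le_log (half_pos L0) (show L / 2 ≤ L + -1 * l (ψ z) by linarith)
        rw [log_div L0.ne' two_ne_zero] at this
        linarith [lnn (ψ z)]
      · have h6 := log_le_log κ0 b2
        have h7 := log_le_sub_one_of_pos (show 0 < L / 4 by positivity)
        rw [log_div L0.ne' (by norm_num), show (4 : ℝ) = 2 ^ 2 by norm_num, log_pow] at h7
        push_cast at h7
        linarith [log_two_lt_d9, log_nonneg one_le_two]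
    have b4 : ∀ t, -log (1 + 1 * l t) ≤ 0 := fun t =>
      neg_nonpos.2 (log_nonneg (by linarith [lnn t]))
    have b5 := Finset.sum_le_sum (s := S) fun c _ => show -log (1 + 1 * l (ψ z - c)⁻¹) +
        l (ψ z - c) ≤ log (2 * (1 + ‖c‖ ^ 2)) + l (ψ z) by
      have h8 := pow_le_pow_left₀ (norm_nonneg _) (norm_sub_le (ψ z) c) 2
      have := log_le_log (by positivity) (show 1 + ‖ψ z - c‖ ^ 2 ≤
        2 * (1 + ‖c‖ ^ 2) * (1 + ‖ψ z‖ ^ 2) by
          nlinarith [sq_nonneg (‖ψ z‖ - ‖c‖), mul_nonneg (sq_nonneg ‖c‖) (sq_nonneg ‖ψ z‖)])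
      rw [log_mul (by positivity) (by positivity)] at this
      linarith [b4 (ψ z - c)⁻¹]
    rw [Finset.sum_add_distrib (g := fun _ => l (ψ z)), Finset.sum_const, nsmul_eq_mul] at b5
    simp only [Pi.add_apply]
    rw [mul_assoc (4 * C₁) N, ← mul_add]
    refine mul_le_mul_of_nonneg_left ?_ (by positivity)
    linarith [b4 (ψ z)]
  have k5 : circleAverage (fun z => 4 * C₁ * N * log (1 + ‖ψ z‖ ^ 2)) 0 r =
      4 * C₁ * N * circleAverage (fun z => log (1 + ‖ψ z‖ ^ 2)) 0 r :=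
    circleAverage_fun_smul (a := 4 * C₁ * N)
  rw [circleAverage_add ci' (circleIntegrable_const _ _ _), circleAverage_const,
    k5] at k4
  have k6 : 4 * TN (lam (gr ψ)) r =
      2 * π * (circleAverage (fun z => log (1 + ‖ψ z‖ ^ 2)) 0 r - l a) := by
    rw [TN, ← integral_const_mul, ← ψ0, ← P1.2.2]
    refine setIntegral_congr_fun measurableSet_ball fun z hz => ?_
    simp only [lam_gr (d1.differentiableAt (isOpen_ball.mem_nhds (ball_subset_ball rs.le hz)))]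
    ring
  have k7 : 0 ≤ TN (lam (gr ψ)) r := setIntegral_nonneg measurableSet_ball fun z hz =>
    mul_nonneg (log_nn hz) (H4.R1.lamv_nn _ _)
  have k8 : circleAverage (fun z => log (1 + ‖ψ z‖ ^ 2)) 0 r - l a ≤ TN (lam (gr ψ)) r := by
    nlinarith [pi_gt_three]
  simp only [k2, mul_zero, norm_zero, ne_eq, OfNat.ofNat_ne_zero, not_false_eq_true, zero_pow,
    sub_zero, log_one, neg_zero, ψ0] at k1
  have k9 : log (1 / (1 - r)) - log 4 ≤ 4 * C₁ * N * (TN (lam (gr ψ)) r + l a + K / N) := by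
    have : 4 * C₁ * N * (K / N) = 4 * C₁ * K := by field_simp
    nlinarith [mul_le_mul_of_nonneg_left k8 (show 0 ≤ 4 * C₁ * N by positivity)]
  rw [← inv_mul_le_iff₀ (by positivity)] at k9
  linarith [le_max_right (2 / η) C₂]

end Pool.Agent.MP_c69980_ag.H10
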