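import Pool.Agent.MP_c69980_ag.H4.SpecC
import Pool.Agent.MP_c69980_ag.H66.Rep
import Pool.Agent.MP_c69980_ag.H62.GoodA

/-! Potentials on discs and their Laplacians. -/

set_option autoImplicit false

namespace Pool.Agent.MP_c69980_ag.H10

open Metric Filter Topology MeasureTheory Set Real H4
open scoped ContDiff

/-- Green representation of `u` with Laplacian `d`. -/
def Pt (r : ℝ) (u d : ℂ → ℝ) : Prop :=
  CircleIntegrable u 0 r ∧ IntegrableOn (fun z => log (r / ‖z‖) * d z) (ball 0 r) ∧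
    ∫ z in ball 0 r, log (r / ‖z‖) * d z = 2 * π * (circleAverage u 0 r - u 0)

/-- The Laplacian of `u` is at least `d`. -/
def Lo (r : ℝ) (u d : ℂ → ℝ) : Prop := ∃ d', Pt r u d' ∧ ∀ z ∈ ball (0 : ℂ) r, d z ≤ d' z

variable {r s : ℝ} {u d u' d' : ℂ → ℝ} {ρ : ℂ → ℂ}

lemma Pt.lo (h : Pt r u d) : Lo r u d := ⟨d, h, fun _ _ => le_rfl⟩

lemma Lo.mono (h : Lo r u d) (h' : ∀ z ∈ ball (0 : ℂ) r, d' z ≤ d z) : Lo r u d' :=
  h.imp fun _ k => ⟨k.1, fun z hz => (h' z hz).trans (k.2 z hz)⟩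

lemma Lo.add (h : Lo r u d) (h' : Lo r u' d') :
    Lo r (fun z => u z + u' z) fun z => d z + d' z := by
  obtain ⟨e, ⟨a1, a2, a3⟩, a4⟩ := h
  obtain ⟨e', ⟨b1, b2, b3⟩, b4⟩ := h'
  refine ⟨fun z => e z + e' z, ⟨a1.add b1, ?_, ?_⟩, fun z hz => add_le_add (a4 z hz) (b4 z hz)⟩
  · simp only [mul_add]; exact a2.add b2
  · simp only [mul_add]
    rw [integral_add a2 b2, a3, b3, circleAverage_fun_add a1 b1]
    ring

lemma Lo.mul (h : Lo r u d) {c : ℝ} (hc : 0 ≤ c) : Lo r (fun z => c * u z) fun z => c * d z := by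
  obtain ⟨e, ⟨a1, a2, a3⟩, a4⟩ := h
  refine ⟨fun z => c * e z, ⟨a1.const_mul c, ?_, ?_⟩,
    fun z hz => mul_le_mul_of_nonneg_left (a4 z hz) hc⟩
  · simp only [mul_left_comm _ c]; exact a2.const_mul c
  · simp only [mul_left_comm _ c]
    have : circleAverage (fun z => c * u z) 0 r = c * circleAverage u 0 r :=
      circleAverage_fun_smul (a := c)
    rw [integral_const_mul, a3, this]
    ring

lemma Lo.sum {ι : Type} (S : Finset ι) {u d : ι → ℂ → ℝ} (h : ∀ i ∈ S, Lo r (u i) (d i)) :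
    Lo r (fun z => ∑ i ∈ S, u i z) fun z => ∑ i ∈ S, d i z := by
  classical
  induction S using Finset.induction_on with
  | empty => exact ⟨0, ⟨by simp, by simp, by simp [circleAverage_const]⟩, by simp⟩
  | insert a S ha ih =>
    simp only [Finset.sum_insert ha]
    exact (h a (by simp)).add (ih fun i hi => h i (by simp [hi]))

lemma log_nn {z : ℂ} (hz : z ∈ ball (0 : ℂ) r) : 0 ≤ log (r / ‖z‖) := by
  rcases eq_or_ne z 0 with rfl | h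
  · simp
  · exact log_nonneg ((one_le_div (norm_pos_iff.2 h)).2 (mem_ball_zero_iff.1 hz).le)

lemma Pt.le (h : Pt r u d) (h' : Lo r u' d) :
    circleAverage u 0 r - u 0 ≤ circleAverage u' 0 r - u' 0 := by
  obtain ⟨e, ⟨-, b2, b3⟩, b4⟩ := h'
  have := setIntegral_mono_on h.2.1 b2 measurableSet_ball fun z hz =>
    mul_le_mul_of_nonneg_left (b4 z hz) (log_nn hz)
  rw [h.2.2, b3] at this
  exact le_of_mul_le_mul_left this (by positivity)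

lemma pot (hr : 0 < r) (hs : r < s) (hρ : DifferentiableOn ℂ ρ (ball 0 s)) {V : Set ℝ}
    (hV : IsOpen V) {Λ Λ₁ Λ₂ : ℝ → ℝ} (h0 : ContDiffOn ℝ ∞ Λ V)
    (h1 : ∀ x ∈ V, HasDerivAt Λ (Λ₁ x) x) (h2 : ∀ x ∈ V, HasDerivAt Λ₁ (Λ₂ x) x)
    (hm : ∀ z ∈ ball (0 : ℂ) s, ‖ρ z‖ ^ 2 ∈ V) (hd : ∀ z ∈ ball (0 : ℂ) s,
      d z = 4 * ‖deriv ρ z‖ ^ 2 * (Λ₁ (‖ρ z‖ ^ 2) + ‖ρ z‖ ^ 2 * Λ₂ (‖ρ z‖ ^ 2))) :
    Pt r (fun z => Λ (‖ρ z‖ ^ 2)) d := by
  have an := hρ.analyticOnNhd isOpen_ball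
  have c1 : ContDiffOn ℝ ∞ (fun z => ‖ρ z‖ ^ 2) (ball 0 s) :=
    ((an.contDiffOn_of_completeSpace (n := ∞)).restrict_scalars ℝ).norm_sq ℂ
  have c2 := h0.comp c1 hm
  have sub := closedBall_subset_ball (x := (0 : ℂ)) hs
  obtain ⟨a1, a2⟩ := R1.rep _ _ 0 r isOpen_ball c2 hr sub
  have e : EqOn (fun z => log (r / ‖z - 0‖) * lap (Λ ∘ fun z => ‖ρ z‖ ^ 2) z)
      (fun z => log (r / ‖z‖) * d z) (ball 0 r) := fun z hz => by
    have hz' := sub (ball_subset_closedBall hz)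
    have c3 : ContDiffAt ℝ 2 (fun z => ‖ρ z‖ ^ 2) z :=
      (c1.contDiffAt (isOpen_ball.mem_nhds hz')).of_le (by norm_cast)
    have k1 := (R1.lapRule _ _ Λ z c3 c3
      ((h0.contDiffAt (hV.mem_nhds (hm z hz'))).of_le (by norm_cast))).2.2.1
    have k2 : lap (fun z => ‖ρ z‖ ^ 2) z = 4 * ‖deriv ρ z‖ ^ 2 := by
      have := R1.lap_sq (F := fun z (_ : Fin 1) => ρ z) (analyticAt_pi_iff.2 fun _ => an z hz')
      rw [deriv_pi fun _ => (an z hz').differentiableAt] at this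
      simpa [H4.sq] using this
    have k3 := H62.norm_grad (f := fun z => ‖ρ z‖ ^ 2) (Λ := id) (an z hz').differentiableAt
      (hasDerivAt_id _) (EventuallyEq.refl _ _)
    have k4 : deriv (deriv Λ) (‖ρ z‖ ^ 2) = Λ₂ (‖ρ z‖ ^ 2) := by
      rw [← (h2 _ (hm z hz')).deriv]
      refine EventuallyEq.deriv_eq ?_
      filter_upwards [hV.mem_nhds (hm z hz')] with x hx using (h1 x hx).deriv
    simp only [sub_zero, Function.comp_def, k1, k2, k3, k4, (h1 _ (hm z hz')).deriv, hd z hz']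
    ring
  refine ⟨(c2.continuousOn.mono ?_).circleIntegrable', a1.congr_fun e measurableSet_ball, ?_⟩
  · rw [abs_of_pos hr]; exact sphere_subset_closedBall.trans sub
  · rw [← setIntegral_congr_fun measurableSet_ball e]
    have : (0 : ℝ) < 2 * π := by positivity
    simp only [Function.comp_def] at a2 ⊢
    rw [a2]
    field_simp

lemma p1 (hr : 0 < r) (hs : r < s) (hρ : DifferentiableOn ℂ ρ (ball 0 s)) :
    Pt r (fun z => log (1 + ‖ρ z‖ ^ 2)) fun z => 4 * ‖deriv ρ z‖ ^ 2 / (1 + ‖ρ z‖ ^ 2) ^ 2 := by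
  have p : ∀ x ∈ Ioi (-1 : ℝ), 1 + x ≠ 0 := fun x hx => by linarith [mem_Ioi.1 hx]
  refine pot (Λ := fun x => log (1 + x)) (Λ₁ := fun x => 1 / (1 + x))
    (Λ₂ := fun x => -1 / (1 + x) ^ 2) hr hs hρ isOpen_Ioi (ContDiffOn.log (by fun_prop) p)
    (fun x hx => ((hasDerivAt_id x).const_add 1).log (p x hx))
    (fun x hx => by simpa using ((hasDerivAt_id x).const_add 1).fun_inv (p x hx))
    (fun z _ => mem_Ioi.2 (lt_of_lt_of_le neg_one_lt_zero (sq_nonneg _))) fun z _ => ?_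
  field_simp
  ring

lemma p2 (hr : 0 < r) (hs : r < s) (hρ : DifferentiableOn ℂ ρ (ball 0 s)) (α β : ℝ)
    (h : ∀ z ∈ ball (0 : ℂ) s, 0 < α + β * log (1 + ‖ρ z‖ ^ 2)) :
    Pt r (fun z => -log (α + β * log (1 + ‖ρ z‖ ^ 2))) fun z => 4 * ‖deriv ρ z‖ ^ 2 *
      (β ^ 2 * ‖ρ z‖ ^ 2 / ((1 + ‖ρ z‖ ^ 2) ^ 2 * (α + β * log (1 + ‖ρ z‖ ^ 2)) ^ 2) -
        β / ((1 + ‖ρ z‖ ^ 2) ^ 2 * (α + β * log (1 + ‖ρ z‖ ^ 2)))) := by
  have p : ∀ x ∈ Ioi (-1 : ℝ), 1 + x ≠ 0 := fun x hx => by linarith [mem_Ioi.1 hx]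
  have c : ContDiffOn ℝ ∞ (fun x => α + β * log (1 + x)) (Ioi (-1)) :=
    contDiffOn_const.add (contDiffOn_const.mul (ContDiffOn.log (by fun_prop) p))
  have dy : ∀ x ∈ Ioi (-1 : ℝ), HasDerivAt (fun x => α + β * log (1 + x)) (β * (1 / (1 + x))) x :=
    fun x hx => ((((hasDerivAt_id x).const_add 1).log (p x hx)).const_mul β).const_add α
  refine pot (V := Ioi (-1) ∩ (fun x => α + β * log (1 + x)) ⁻¹' Ioi 0)
    (Λ := fun x => -log (α + β * log (1 + x)))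
    (Λ₁ := fun x => -β * ((1 + x) * (α + β * log (1 + x)))⁻¹)
    (Λ₂ := fun x => β * (α + β * log (1 + x) + β) / ((1 + x) * (α + β * log (1 + x))) ^ 2) hr hs hρ
    (c.continuousOn.isOpen_inter_preimage isOpen_Ioi isOpen_Ioi)
    ((c.mono inter_subset_left).log fun x hx => ne_of_gt hx.2).neg (fun x hx => ?_) (fun x hx => ?_)
    (fun z hz => ⟨mem_Ioi.2 (lt_of_lt_of_le neg_one_lt_zero (sq_nonneg _)), h z hz⟩) fun z hz => ?_
  · refine ((dy x hx.1).log (ne_of_gt hx.2)).fun_neg.congr_deriv ?_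
    have := p x hx.1
    have : α + β * log (1 + x) ≠ 0 := ne_of_gt hx.2
    field_simp
  · have := p x hx.1
    have h2 : α + β * log (1 + x) ≠ 0 := ne_of_gt hx.2
    refine (((((hasDerivAt_id x).const_add 1).fun_mul (dy x hx.1)).fun_inv
      (mul_ne_zero this h2)).const_mul (-β)).congr_deriv ?_
    simp only [id]
    field_simp
  · have := (h z hz).ne'
    field_simp
    ring

lemma p4 (hr : 0 < r) (hs : r < s) (hρ : DifferentiableOn ℂ ρ (ball 0 s))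
    (h : ∀ z ∈ ball (0 : ℂ) s, ‖ρ z‖ ^ 2 < 1) :
    Pt r (fun z => -log (1 - ‖ρ z‖ ^ 2)) fun z => 4 * ‖deriv ρ z‖ ^ 2 / (1 - ‖ρ z‖ ^ 2) ^ 2 := by
  have p : ∀ x ∈ Iio (1 : ℝ), 1 - x ≠ 0 := fun x hx => by linarith [mem_Iio.1 hx]
  refine pot (Λ := fun x => -log (1 - x)) (Λ₁ := fun x => (1 - x)⁻¹)
    (Λ₂ := fun x => 1 / (1 - x) ^ 2) hr hs hρ isOpen_Iio (ContDiffOn.log (by fun_prop) p).neg
    (fun x hx => (((hasDerivAt_id x).const_sub 1).log (p x hx)).fun_neg.congr_deriv (by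
      simp [neg_div]))
    (fun x hx => by simpa using ((hasDerivAt_id x).const_sub 1).fun_inv (p x hx)) h fun z hz => ?_
  have := p _ (h z hz)
  field_simp
  ring

/-- The cusp density. -/
noncomputable def ee (x y : ℝ) : ℝ := x / ((1 + x) ^ 2 * y ^ 2)

lemma lnn (t : ℂ) : 0 ≤ log (1 + ‖t‖ ^ 2) := log_nonneg (by nlinarith [sq_nonneg ‖t‖])

lemma cusp_aux {x y p : ℝ} (hx : 0 ≤ x) (hy : 1 ≤ y) (hp : 0 ≤ p) :
    4 * p * ee x y ≤ 4 * p * (1 ^ 2 * x / ((1 + x) ^ 2 * y ^ 2) - 1 / ((1 + x) ^ 2 * y)) +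
      4 * p / (1 + x) ^ 2 := by
  have : 1 / ((1 + x) ^ 2 * y) ≤ 1 / (1 + x) ^ 2 :=
    one_div_le_one_div_of_le (by positivity) (le_mul_of_one_le_right (by positivity) hy)
  have := mul_le_mul_of_nonneg_left this hp
  simp only [ee, one_pow, one_mul, mul_div_assoc', mul_one] at this ⊢
  rw [mul_sub, mul_div_assoc', mul_div_assoc', mul_one, mul_div_assoc 4 p, mul_div_assoc 4 p]
  linarith

lemma lo_inf (hr : 0 < r) (hs : r < s) (hρ : DifferentiableOn ℂ ρ (ball 0 s)) :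
    Lo r (fun z => -log (1 + 1 * log (1 + ‖ρ z‖ ^ 2)) + log (1 + ‖ρ z‖ ^ 2)) fun z =>
      4 * ‖deriv ρ z‖ ^ 2 * ee (‖ρ z‖ ^ 2) (1 + 1 * log (1 + ‖ρ z‖ ^ 2)) :=
  ((p2 hr hs hρ 1 1 fun z _ => by linarith [lnn (ρ z)]).lo.add (p1 hr hs hρ).lo).mono fun z _ =>
    cusp_aux (sq_nonneg _) (by linarith [lnn (ρ z)]) (sq_nonneg _)

lemma lo_fin (hr : 0 < r) (hs : r < s) (hρ : DifferentiableOn ℂ ρ (ball 0 s)) (c : ℂ)
    (hc : ∀ z ∈ ball (0 : ℂ) s, ρ z ≠ c) :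
    Lo r (fun z => -log (1 + 1 * log (1 + ‖(ρ z - c)⁻¹‖ ^ 2)) + log (1 + ‖ρ z - c‖ ^ 2)) fun z =>
      4 * ‖deriv ρ z‖ ^ 2 * ((‖(ρ z - c)⁻¹‖ ^ 2) ^ 2 *
        ee (‖(ρ z - c)⁻¹‖ ^ 2) (1 + 1 * log (1 + ‖(ρ z - c)⁻¹‖ ^ 2))) := by
  have h1 := hρ.sub_const c
  refine ((p2 hr hs (h1.fun_inv fun z hz => sub_ne_zero.2 (hc z hz)) 1 1 fun z _ => by
    linarith [lnn (ρ z - c)⁻¹]).lo.add (p1 hr hs h1).lo).mono fun z hz => ?_
  have hz' := ball_subset_ball hs.le hz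
  have h2 := sub_ne_zero.2 (hc z hz')
  have h3 := norm_pos_iff.2 h2
  have := cusp_aux (sq_nonneg ‖(ρ z - c)⁻¹‖) (y := 1 + 1 * log (1 + ‖(ρ z - c)⁻¹‖ ^ 2))
    (by linarith [lnn (ρ z - c)⁻¹]) (sq_nonneg (‖deriv ρ z‖ * ‖(ρ z - c)⁻¹‖ ^ 2))
  rw [deriv_fun_inv'' (h1.differentiableAt (isOpen_ball.mem_nhds hz')) h2, deriv_sub_const]
  refine le_trans (le_of_eq (by ring)) (this.trans_eq (congrArg₂ _ ?_ ?_))
  · simp [div_eq_mul_inv]
  · rw [norm_inv]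
    field_simp
    ring

lemma lo_out (hr : 0 < r) (hs : r < s) (hρ : DifferentiableOn ℂ ρ (ball 0 s)) (L : ℝ)
    (h : ∀ z ∈ ball (0 : ℂ) s, 0 < L + -1 * log (1 + ‖ρ z‖ ^ 2)) :
    Lo r (fun z => -log (L + -1 * log (1 + ‖ρ z‖ ^ 2))) fun z =>
      4 * ‖deriv ρ z‖ ^ 2 * ee (‖ρ z‖ ^ 2) (L + -1 * log (1 + ‖ρ z‖ ^ 2)) :=
  (p2 hr hs hρ L (-1) h).lo.mono fun z hz => by
    have := h z (ball_subset_ball hs.le hz)
    refine mul_le_mul_of_nonneg_left ?_ (by positivity)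
    rw [neg_div, sub_neg_eq_add, neg_one_sq, one_mul]
    exact le_add_of_nonneg_right (by positivity)

end Pool.Agent.MP_c69980_ag.H10
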